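import Pool.Agent.Y703.XK.Stm
import Pool.Agent.Y699.E.Box

/-!
# XK-BIL: bilinear sums of cubic symbols over the Eisenstein integers
-/

set_option autoImplicit false
set_option linter.all false

open Finset

namespace Pool.Agent.Y363.XK

open Pool.Agent.Y703.XK
open Pool.Agent.Y692.QS (Ei w nr toC)
open Pool.Agent.Y715.T.Rec (cs)
open Pool.Agent.Y715.T.RecG (Pq)
open Pool.Agent.Y699.E
open scoped ComplexConjugate

open Classical in
theorem core : ∃ C : ℝ, 1 ≤ C ∧ ∀ (P Q : Finset Ei) (A B z : ℕ) (c d : Ei → ℂ),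
    (∀ π ∈ P, Pq π ∧ nrm π ≤ A) → (∀ ρ ∈ Q, Pq ρ ∧ nrm ρ ≤ B) → Disjoint P Q →
    1 ≤ z → z ≤ A → z ≤ B → (∀ π, ‖c π‖ ≤ 1) → (∀ ρ, ‖d ρ‖ ≤ 1) →
    ‖∑ π ∈ P, ∑ ρ ∈ Q, c π * d ρ * ez (cs π ρ)‖ ^ 24 * z ≤ C * ((A : ℝ) * B) ^ 24 := by
  obtain ⟨C, hC1, hC⟩ := box
  refine ⟨(2 * C) ^ 24, one_le_pow₀ (by linarith), ?_⟩
  intro P Q A B z c d hP hQ hdis hz hzA hzB hc hd
  have hps : ∀ π : Ei, Pq π → PS π := fun π h => ⟨h.three, h.prime.irreducible.squarefree⟩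
  have hPA : P ⊆ SB A := fun x hx => mem_SB.2 ⟨(hP x hx).2, hps x (hP x hx).1⟩
  have hQB : Q ⊆ SB B := fun x hx => mem_SB.2 ⟨(hQ x hx).2, hps x (hQ x hx).1⟩
  have h1 := hC (fun x => if x ∈ P then c x else 0) (fun y => if y ∈ Q then d y else 0)
    (fun x => by
      show ‖if x ∈ P then c x else 0‖ ≤ 1
      split_ifs
      · exact hc x
      · rw [norm_zero]; exact zero_le_one)
    (fun y => by
      show ‖if y ∈ Q then d y else 0‖ ≤ 1
      split_ifs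
      · exact hd y
      · rw [norm_zero]; exact zero_le_one) A B (hz.trans hzA) (hz.trans hzB)
  have e1 : Bil (fun x => if x ∈ P then c x else 0) (fun y => if y ∈ Q then d y else 0) A B =
      ∑ π ∈ P, ∑ ρ ∈ Q, c π * d ρ * ez (cs π ρ) := by
    unfold Bil
    refine (sum_subset hPA fun x _ hx => ?_).symm.trans (sum_congr rfl fun x hx => ?_)
    · refine sum_eq_zero fun y _ => ?_
      show (if x ∈ P then c x else 0) * (if y ∈ Q then d y else 0) * jac x y = 0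
      rw [if_neg hx, zero_mul, zero_mul]
    · refine (sum_subset hQB fun y _ hy => ?_).symm.trans (sum_congr rfl fun y hy => ?_)
      · show (if x ∈ P then c x else 0) * (if y ∈ Q then d y else 0) * jac x y = 0
        rw [if_neg hy, mul_zero, zero_mul]
      · show (if x ∈ P then c x else 0) * (if y ∈ Q then d y else 0) * jac x y = _
        rw [if_pos hx, if_pos hy, jac_prime (hP x hx).1, chi_of fun hd' => ?_]
        have he := eq_of_dvd (hP x hx).1 (hQ y hy).1 hd'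
        exact (Finset.disjoint_left.1 hdis) hx (he ▸ hy)
  rw [e1] at h1
  have hz0 : (0 : ℝ) < z := by exact_mod_cast hz
  have hzA' : (z : ℝ) ≤ A := by exact_mod_cast hzA
  have hzB' : (z : ℝ) ≤ B := by exact_mod_cast hzB
  have hA0 : (0 : ℝ) < A := lt_of_lt_of_le hz0 hzA'
  have hB0 : (0 : ℝ) < B := lt_of_lt_of_le hz0 hzB'
  have h2 : (A : ℝ) ^ (-(1 / 24) : ℝ) ≤ (z : ℝ) ^ (-(1 / 24) : ℝ) :=
    Real.rpow_le_rpow_of_nonpos hz0 hzA' (by norm_num)
  have h3 : (B : ℝ) ^ (-(1 / 24) : ℝ) ≤ (z : ℝ) ^ (-(1 / 24) : ℝ) :=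
    Real.rpow_le_rpow_of_nonpos hz0 hzB' (by norm_num)
  set q : ℝ := (z : ℝ) ^ (-(1 / 24) : ℝ) with hq
  have hq24 : q ^ 24 * z = 1 := by
    rw [hq, ← Real.rpow_natCast, ← Real.rpow_mul hz0.le]
    norm_num
    rw [Real.rpow_neg_one]
    exact inv_mul_cancel₀ hz0.ne'
  have h4 : ‖∑ π ∈ P, ∑ ρ ∈ Q, c π * d ρ * ez (cs π ρ)‖ ≤ 2 * C * (A * B) * q := by
    refine h1.trans ?_
    have h5 : (A : ℝ) * B * ((A : ℝ) ^ (-(1 / 24) : ℝ) + (B : ℝ) ^ (-(1 / 24) : ℝ)) ≤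
        A * B * (q + q) := by
      apply mul_le_mul_of_nonneg_left (add_le_add h2 h3) (by positivity)
    have h6 := mul_le_mul_of_nonneg_left h5 (by linarith : (0 : ℝ) ≤ C)
    refine h6.trans (le_of_eq ?_)
    ring
  have h5 := pow_le_pow_left₀ (norm_nonneg _) h4 24
  calc ‖∑ π ∈ P, ∑ ρ ∈ Q, c π * d ρ * ez (cs π ρ)‖ ^ 24 * z ≤
      (2 * C * (A * B) * q) ^ 24 * z := mul_le_mul_of_nonneg_right h5 hz0.le
    _ = (2 * C) ^ 24 * ((A : ℝ) * B) ^ 24 * (q ^ 24 * z) := by ring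
    _ = (2 * C) ^ 24 * ((A : ℝ) * B) ^ 24 := by rw [hq24, mul_one]

theorem t_BIL : S_BIL := by
  obtain ⟨C, hC1, hC⟩ := core
  refine ⟨C, hC1, ?_⟩
  intro P Q A B z c d a hP hQ hdis ha hz hzA hzB hc hd
  have h3 : a = 1 ∨ a = -1 := by
    revert a
    decide
  rcases h3 with h | h
  · subst h
    simp only [one_mul]
    exact hC P Q A B z c d hP hQ hdis hz hzA hzB hc hd
  · subst h
    have h1 := hC P Q A B z (fun x => conj (c x)) (fun x => conj (d x)) hP hQ hdis hz hzA hzB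
      (fun x => by rw [RCLike.norm_conj]; exact hc x) (fun x => by rw [RCLike.norm_conj]; exact hd x)
    have e1 : ∑ π ∈ P, ∑ ρ ∈ Q, c π * d ρ * ez (-1 * cs π ρ) =
        conj (∑ π ∈ P, ∑ ρ ∈ Q, conj (c π) * conj (d ρ) * ez (cs π ρ)) := by
      rw [map_sum]
      refine sum_congr rfl fun π _ => ?_
      rw [map_sum]
      refine sum_congr rfl fun ρ _ => ?_
      rw [map_mul, map_mul, Complex.conj_conj, Complex.conj_conj, conj_ez, neg_one_mul]
    rw [e1, RCLike.norm_conj]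
    exact h1

end Pool.Agent.Y363.XK
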